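import Mathlib

/-!
# The theorem of Burnside on groups of order p ^ a * q ^ b

Proof with the regular representation and the theorem of Wedderburn and Artin.
-/

set_option autoImplicit false

namespace Pool.Agent.Lib.MP_3e83d2_al.Burnside

section trace
open Matrix

/-- trace of left multiplication on a product of matrix algebras -/
theorem trace_mulLeft_pi {n : ℕ} (d : Fin n → ℕ) (a : Π i, Matrix (Fin (d i)) (Fin (d i)) ℂ) :
    LinearMap.trace ℂ (Π i, Matrix (Fin (d i)) (Fin (d i)) ℂ) (LinearMap.mulLeft ℂ a)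
      = ∑ i, (d i : ℂ) * (a i).trace := by
  classical
  rw [LinearMap.trace_eq_matrix_trace ℂ (Pi.basis (fun i => Matrix.stdBasis ℂ (Fin (d i)) (Fin (d i))))]
  rw [Matrix.trace, Fintype.sum_sigma]
  refine Finset.sum_congr rfl fun i _ => ?_
  rw [Fintype.sum_prod_type]
  simp only [Matrix.diag, LinearMap.toMatrix_apply, Pi.basis_apply, Matrix.stdBasis_eq_single,
    LinearMap.mulLeft_apply, Pi.basis_repr]
  have key : ∀ (x y : Fin (d i)), (((Matrix.stdBasis ℂ (Fin (d i)) (Fin (d i))).repr
      ((a * Pi.single i (Matrix.single x y (1:ℂ)) : Π i, Matrix (Fin (d i)) (Fin (d i)) ℂ) i)) (x, y)) = a i x x := by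
    intro x y
    rw [Pi.mul_apply, Pi.single_eq_same]
    have : a i * Matrix.single x y (1:ℂ) = ∑ r, (a i r x) • Matrix.single r y (1:ℂ) := by
      ext r s
      rw [Matrix.sum_apply]
      by_cases h : y = s <;> simp [Matrix.mul_apply, Matrix.single_apply, h]
    rw [this, map_sum, Finsupp.finsetSum_apply]
    simp only [map_smul, Finsupp.smul_apply, ← Matrix.stdBasis_eq_single, Module.Basis.repr_self]
    simp [Finsupp.single_apply]
  simp only [key]
  simp [Matrix.trace, Finset.mul_sum]

end trace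

section avg
open Complex

theorem all_eq_of_norm_sum {s : Multiset ℂ} (hs : ∀ z ∈ s, ‖z‖ = 1)
    (h1 : ‖s.sum / (Multiset.card s : ℂ)‖ = 1) : ∀ z ∈ s, z = s.sum / (Multiset.card s : ℂ) := by
  classical
  set u := s.sum / (Multiset.card s : ℂ) with hu
  have hcard : (Multiset.card s : ℂ) ≠ 0 := by
    intro h
    rw [h, div_zero] at hu
    rw [hu, norm_zero] at h1
    exact zero_ne_one h1
  -- the sum of re (z * conj u) equals card
  have hsum : (s.map (fun z => (z * (starRingEnd ℂ) u).re)).sum = (Multiset.card s : ℝ) := by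
    have h2 : (s.map (fun z => (z * (starRingEnd ℂ) u))).sum = (Multiset.card s : ℂ) := by
      rw [Multiset.sum_map_mul_right, Multiset.map_id']
      have : s.sum = (Multiset.card s : ℂ) * u := by rw [hu]; field_simp
      rw [this, mul_assoc, Complex.mul_conj, Complex.normSq_eq_norm_sq, h1]
      simp
    have h3 := congrArg Complex.re h2
    rw [Complex.natCast_re] at h3
    rw [← h3]
    have := (map_multiset_sum Complex.reAddGroupHom (s.map (fun z => (z * (starRingEnd ℂ) u)))).symm
    rw [Multiset.map_map] at this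
    exact this
  have hle : ∀ z ∈ s, (z * (starRingEnd ℂ) u).re ≤ 1 := by
    intro z hz
    calc (z * (starRingEnd ℂ) u).re ≤ ‖z * (starRingEnd ℂ) u‖ := Complex.re_le_norm _
      _ = 1 := by rw [norm_mul, hs z hz, Complex.norm_conj, h1, one_mul]
  have heq : ∀ z ∈ s, (z * (starRingEnd ℂ) u).re = 1 := by
    have hz0 : (s.map (fun z => 1 - (z * (starRingEnd ℂ) u).re)).sum = 0 := by
      rw [Multiset.sum_map_sub, hsum]; simp
    intro z hz
    have hnn : ∀ x ∈ s.map (fun z => 1 - (z * (starRingEnd ℂ) u).re), 0 ≤ x := by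
      intro x hx
      rw [Multiset.mem_map] at hx
      obtain ⟨y, hy, rfl⟩ := hx
      linarith [hle y hy]
    have := Multiset.all_zero_of_le_zero_le_of_sum_eq_zero hnn hz0 _
      (Multiset.mem_map_of_mem (fun z => 1 - (z * (starRingEnd ℂ) u).re) hz)
    linarith
  intro z hz
  have hn : ‖z * (starRingEnd ℂ) u‖ = 1 := by rw [norm_mul, hs z hz, Complex.norm_conj, h1, one_mul]
  have h4 : z * (starRingEnd ℂ) u = 1 := by
    apply Complex.ext
    · rw [heq z hz]; simp
    · have := Complex.sq_norm (z * (starRingEnd ℂ) u)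
      rw [hn, Complex.normSq_apply, heq z hz] at this
      have h5 : (z * (starRingEnd ℂ) u).im * (z * (starRingEnd ℂ) u).im = 0 := by linarith
      simpa using h5
  have hu1 : u * (starRingEnd ℂ) u = 1 := by
    rw [Complex.mul_conj, Complex.normSq_eq_norm_sq, h1]; simp
  have hcu : (starRingEnd ℂ) u ≠ 0 := by
    intro h; rw [h, mul_zero] at hu1; exact zero_ne_one hu1
  exact mul_right_cancel₀ hcu (h4.trans hu1.symm)

theorem avg_root_unity {N : ℕ} (hN : 0 < N) {s : Multiset ℂ} (hs : ∀ z ∈ s, z ^ N = 1)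
    (h0 : s.sum ≠ 0) (hint : IsIntegral ℤ (s.sum / (Multiset.card s : ℂ))) :
    ∀ z ∈ s, z = s.sum / (Multiset.card s : ℂ) := by
  classical
  have : NeZero N := ⟨hN.ne'⟩
  have hnorm1 : ∀ z : ℂ, z ^ N = 1 → ‖z‖ = 1 := fun z hz => norm_eq_one_of_pow_eq_one hz hN.ne'
  apply all_eq_of_norm_sum (fun z hz => hnorm1 z (hs z hz))
  -- the number field
  set ζ : ℂ := Complex.exp (2 * Real.pi * Complex.I / N) with hζ
  have hprim : IsPrimitiveRoot ζ N := Complex.isPrimitiveRoot_exp N hN.ne'
  have hζint : IsIntegral ℚ ζ := by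
    refine IsIntegral.of_pow hN ?_
    rw [hprim.pow_eq_one]; exact isIntegral_one
  let K := IntermediateField.adjoin ℚ ({ζ} : Set ℂ)
  have : FiniteDimensional ℚ K := IntermediateField.adjoin.finiteDimensional hζint
  have : NumberField K := { to_finiteDimensional := this }
  have hmem : ∀ z ∈ s, z ∈ K := by
    intro z hz
    obtain ⟨i, _, hi⟩ := hprim.eq_pow_of_pow_eq_one (hs z hz)
    rw [← hi]
    exact pow_mem (IntermediateField.mem_adjoin_simple_self ℚ ζ) i
  let s' : Multiset K := s.pmap (fun z hz => (⟨z, hz⟩ : K)) hmem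
  have hs'c : Multiset.card s' = Multiset.card s := by simp [s']
  have hs'map : s'.map (algebraMap K ℂ) = s := by
    simp only [s', Multiset.map_pmap]
    conv_rhs => rw [← Multiset.map_id s, ← Multiset.pmap_eq_map (p := fun z => z ∈ K) (H := hmem)]
    rfl
  have hs'one : ∀ z ∈ s', z ^ N = 1 := by
    intro z hz
    have : algebraMap K ℂ z ∈ s := by rw [← hs'map]; exact Multiset.mem_map_of_mem _ hz
    have h2 := hs _ this
    rw [← map_pow] at h2
    exact (algebraMap K ℂ).injective (by rw [h2, map_one])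
  let α : K := s'.sum / (Multiset.card s : K)
  have hα : algebraMap K ℂ α = s.sum / (Multiset.card s : ℂ) := by
    simp only [α, map_div₀, map_natCast, map_multiset_sum, hs'map]
  have hcard : (Multiset.card s) ≠ 0 := by
    intro h
    rw [Multiset.card_eq_zero] at h
    exact h0 (by rw [h]; simp)
  have hα0 : α ≠ 0 := by
    intro h
    rw [h, map_zero] at hα
    have := (div_eq_zero_iff.1 hα.symm)
    rcases this with h | h
    · exact h0 h
    · exact hcard (by exact_mod_cast h)
  have hαint : IsIntegral ℤ α := by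
    rw [← hα] at hint
    exact (isIntegral_algebraMap_iff (algebraMap K ℂ).injective).1 hint
  obtain ⟨m, hm, hαm⟩ := NumberField.Embeddings.pow_eq_one_of_norm_le_one K ℂ hα0 hαint (by
    intro φ
    simp only [α, map_div₀, map_natCast, map_multiset_sum, norm_div]
    rw [Complex.norm_natCast]
    have hcpos : (0:ℝ) < (Multiset.card s : ℝ) := by
      have : 0 < Multiset.card s := Nat.pos_of_ne_zero hcard
      exact_mod_cast this
    rw [div_le_one hcpos]
    refine (norm_multiset_sum_le _).trans ?_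
    rw [Multiset.map_map]
    have : ∀ x ∈ s', (norm ∘ φ) x = (1:ℝ) := by
      intro x hx
      have := hs'one x hx
      exact hnorm1 _ (by rw [← map_pow, this, map_one])
    rw [Multiset.map_congr rfl this, Multiset.map_const', Multiset.sum_replicate, hs'c]
    simp)
  have := congrArg (algebraMap K ℂ) hαm
  rw [map_pow, map_one, hα] at this
  exact norm_eq_one_of_pow_eq_one this hm.ne'



end avg

section matr
open Matrix Polynomial

theorem charpoly_root_pow {d N : ℕ} {M : Matrix (Fin d) (Fin d) ℂ} (hM : M ^ N = 1)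
    {z : ℂ} (hz : z ∈ M.charpoly.roots) : z ^ N = 1 := by
  have hr : M.charpoly.IsRoot z := isRoot_of_mem_roots hz
  rw [IsRoot, Matrix.eval_charpoly] at hr
  obtain ⟨v, hv, h⟩ := Matrix.exists_mulVec_eq_zero_iff.2 hr
  have h1 : M *ᵥ v = z • v := by
    rw [Matrix.sub_mulVec, sub_eq_zero] at h
    rw [← h]; simp
  have h2 : ∀ j : ℕ, (M ^ j) *ᵥ v = z ^ j • v := by
    intro j
    induction j with
    | zero => simp
    | succ j ih => rw [pow_succ, ← Matrix.mulVec_mulVec, h1, Matrix.mulVec_smul, ih, smul_smul, pow_succ, mul_comm]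
  have h3 := h2 N
  rw [hM, Matrix.one_mulVec] at h3
  have h4 : (z ^ N - 1) • v = 0 := by rw [sub_smul, one_smul, ← h3, sub_self]
  rcases smul_eq_zero.1 h4 with h5 | h5
  · exact sub_eq_zero.1 h5
  · exact absurd h5 hv

theorem card_charpoly_roots {d : ℕ} (M : Matrix (Fin d) (Fin d) ℂ) :
    Multiset.card M.charpoly.roots = d := by
  rw [← (IsAlgClosed.splits M.charpoly).natDegree_eq_card_roots, Matrix.charpoly_natDegree_eq_dim, Fintype.card_fin]

theorem isIntegral_trace_of_pow {d N : ℕ} (hN : 0 < N) {M : Matrix (Fin d) (Fin d) ℂ} (hM : M ^ N = 1) :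
    IsIntegral ℤ M.trace := by
  rw [Matrix.trace_eq_sum_roots_charpoly]
  refine IsIntegral.multiset_sum fun z hz => ?_
  refine IsIntegral.of_pow hN ?_
  rw [charpoly_root_pow hM hz]; exact isIntegral_one

theorem scalar_of_avg {d N : ℕ} (hd : 0 < d) (hN : 0 < N) {M : Matrix (Fin d) (Fin d) ℂ} (hM : M ^ N = 1)
    (h0 : M.trace ≠ 0) (hint : IsIntegral ℤ (M.trace / (d : ℂ))) : ∃ u : ℂ, M = u • 1 := by
  have htr := Matrix.trace_eq_sum_roots_charpoly (A := M)
  have hc := card_charpoly_roots M
  have hall := avg_root_unity hN (s := M.charpoly.roots) (fun z hz => charpoly_root_pow hM hz)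
    (by rwa [← htr]) (by rw [← htr, hc]; exact hint)
  set u := M.charpoly.roots.sum / (Multiset.card M.charpoly.roots : ℂ) with hu
  refine ⟨u, ?_⟩
  have hrep : M.charpoly.roots = Multiset.replicate d u := Multiset.eq_replicate.2 ⟨hc, hall⟩
  have hcp : M.charpoly = (X - C u) ^ d := by
    rw [(IsAlgClosed.splits M.charpoly).eq_prod_roots, (Matrix.charpoly_monic M).leadingCoeff, hrep]
    simp
  have hCH : aeval M ((X - C u) ^ d) = 0 := by rw [← hcp]; exact Matrix.aeval_self_charpoly M
  have huN : u ^ N = 1 := by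
    apply charpoly_root_pow hM (z := u)
    rw [hrep]; exact Multiset.mem_replicate.2 ⟨hd.ne', rfl⟩
  have hroot : (X ^ N - 1 : ℂ[X]).IsRoot u := by simp [IsRoot, huN]
  obtain ⟨g, hg⟩ := dvd_iff_isRoot.2 hroot
  have hgu : ¬ (X - C u) ∣ g := by
    intro h
    rw [dvd_iff_isRoot] at h
    have hder := congrArg derivative hg
    rw [derivative_mul] at hder
    have := congrArg (eval u) hder
    simp only [eval_add, eval_mul, eval_sub, eval_X, eval_C, sub_self, zero_mul, add_zero, h.eq_zero,
      mul_zero, derivative_sub, derivative_one, sub_zero, derivative_X_pow, eval_pow] at this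
    rcases mul_eq_zero.1 this with h | h
    · exact hN.ne' (by exact_mod_cast h)
    · have hu0 : u = 0 := eq_zero_of_pow_eq_zero h
      rw [hu0, zero_pow hN.ne'] at huN
      exact zero_ne_one huN
  have hcop : IsCoprime ((X - C u) ^ d) g :=
    ((irreducible_X_sub_C u).coprime_iff_not_dvd.2 hgu).pow_left
  obtain ⟨a, b, hab⟩ := hcop
  have e1 : aeval M (b * g) = 1 := by
    have := congrArg (aeval M) hab
    rw [map_add, map_mul, hCH, mul_zero, zero_add, map_one] at this
    exact this
  have e2 : aeval M ((X - C u) * g) = 0 := by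
    rw [← hg]; simp [hM]
  have e3 : aeval M (X - C u) = 0 := by
    calc aeval M (X - C u) = aeval M (X - C u) * aeval M (b * g) := by rw [e1, mul_one]
      _ = aeval M (((X - C u) * g) * b) := by rw [← map_mul]; congr 1; ring
      _ = 0 := by rw [map_mul, e2, zero_mul]
  rw [map_sub, aeval_X, aeval_C, sub_eq_zero] at e3
  rw [e3, Algebra.algebraMap_eq_smul_one]

end matr

section regular
variable {G : Type*} [Group G] [Fintype G]

theorem trace_mulLeft_of (h : G) [Decidable (h = 1)] :
    LinearMap.trace ℂ (MonoidAlgebra ℂ G) (LinearMap.mulLeft ℂ (MonoidAlgebra.of ℂ G h))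
      = if h = 1 then (Fintype.card G : ℂ) else 0 := by
  classical
  rw [LinearMap.trace_eq_matrix_trace ℂ (MonoidAlgebra.basis G ℂ), Matrix.trace]
  have : ∀ x : G, Matrix.diag (LinearMap.toMatrix (MonoidAlgebra.basis G ℂ) (MonoidAlgebra.basis G ℂ)
      (LinearMap.mulLeft ℂ (MonoidAlgebra.of ℂ G h))) x = if h = 1 then 1 else 0 := by
    intro x
    rw [Matrix.diag, LinearMap.toMatrix_apply]
    have e : (LinearMap.mulLeft ℂ (MonoidAlgebra.of ℂ G h)) ((MonoidAlgebra.basis G ℂ) x)
        = (MonoidAlgebra.basis G ℂ) (h * x) := by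
      simp [MonoidAlgebra.basis_apply, MonoidAlgebra.single_mul_single]
    rw [e, Module.Basis.repr_self, Finsupp.single_apply]
    by_cases hh : h = 1 <;> simp [hh]
  simp only [this]
  by_cases hh : h = 1 <;> simp [hh]

omit [Fintype G] in
/-- trace identity for the regular representation -/
theorem regular_trace {n : ℕ} {d : Fin n → ℕ}
    (e : MonoidAlgebra ℂ G ≃ₐ[ℂ] Π i, Matrix (Fin (d i)) (Fin (d i)) ℂ) (a : MonoidAlgebra ℂ G) :
    ∑ i, (d i : ℂ) * (e a i).trace = LinearMap.trace ℂ (MonoidAlgebra ℂ G) (LinearMap.mulLeft ℂ a) := by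
  rw [← trace_mulLeft_pi, ← LinearMap.trace_conj' (LinearMap.mulLeft ℂ a) e.toLinearEquiv]
  congr 1
  apply LinearMap.ext
  intro x
  simp [LinearEquiv.conj_apply]

end regular

section burnside
open Classical in
/-- In a finite simple group, an element whose conjugacy class has prime power size is central. -/
theorem mem_center_of_card_class {G : Type*} [Group G] [Finite G] [IsSimpleGroup G]
    {p k : ℕ} (hp : p.Prime) (g : G) (hg : (ConjClasses.mk g).carrier.ncard = p ^ k) :
    g ∈ Subgroup.center G := by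
  have := Fintype.ofFinite G
  by_cases hg1 : g = 1
  · rw [hg1]; exact one_mem _
  obtain ⟨n, d, hd, ⟨e⟩⟩ :=
    IsSemisimpleRing.exists_algEquiv_pi_matrix_of_isAlgClosed ℂ (MonoidAlgebra ℂ G)
  let ev : ∀ i, MonoidAlgebra ℂ G →ₐ[ℂ] Matrix (Fin (d i)) (Fin (d i)) ℂ := fun i =>
    (Pi.evalAlgHom ℂ (fun i => Matrix (Fin (d i)) (Fin (d i)) ℂ) i).comp (e : MonoidAlgebra ℂ G →ₐ[ℂ] _)
  have hev : ∀ i a, ev i a = e a i := fun i a => rfl
  have hsurj : ∀ i, Function.Surjective (ev i) := by
    intro i y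
    obtain ⟨a, ha⟩ := e.surjective (Pi.single i y)
    exact ⟨a, by rw [hev, ha, Pi.single_eq_same]⟩
  let ρ : ∀ i, G →* Matrix (Fin (d i)) (Fin (d i)) ℂ := fun i =>
    (ev i : MonoidAlgebra ℂ G →* _).comp (MonoidAlgebra.of ℂ G)
  have hρ : ∀ i h, ρ i h = ev i (MonoidAlgebra.of ℂ G h) := fun i h => rfl
  have hdpos : ∀ i, 0 < d i := fun i => Nat.pos_of_ne_zero (hd i).out
  have hcardG : 0 < Fintype.card G := Fintype.card_pos
  have hρpow : ∀ i h, (ρ i h) ^ (Fintype.card G) = 1 := by
    intro i h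
    rw [← map_pow, pow_card_eq_one, map_one]
  -- central elements act as scalars
  have hscalar : ∀ i (a : MonoidAlgebra ℂ G), (∀ b, a * b = b * a) → ∃ c : ℂ, ev i a = c • 1 := by
    intro i a ha
    have : ev i a ∈ Set.center (Matrix (Fin (d i)) (Fin (d i)) ℂ) := by
      rw [Semigroup.mem_center_iff]
      intro y
      obtain ⟨b, rfl⟩ := hsurj i y
      rw [← map_mul, ← map_mul, ha]
    rw [Matrix.center_eq_range] at this
    obtain ⟨c, hc⟩ := this
    refine ⟨c, ?_⟩
    rw [← hc, Matrix.scalar_apply, Matrix.smul_one_eq_diagonal]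
  -- the sum of all group elements
  let σ : MonoidAlgebra ℂ G := ∑ h : G, MonoidAlgebra.of ℂ G h
  have hσl : ∀ h, MonoidAlgebra.of ℂ G h * σ = σ := by
    intro h
    simp only [σ, Finset.mul_sum, ← map_mul]
    exact Fintype.sum_equiv (Equiv.mulLeft h) _ _ (fun x => rfl)
  have hσr : ∀ h, σ * MonoidAlgebra.of ℂ G h = σ := by
    intro h
    simp only [σ, Finset.sum_mul, ← map_mul]
    exact Fintype.sum_equiv (Equiv.mulRight h) _ _ (fun x => rfl)
  have hcomm_of : ∀ a : MonoidAlgebra ℂ G, (∀ h, a * MonoidAlgebra.of ℂ G h = MonoidAlgebra.of ℂ G h * a) →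
      ∀ b, a * b = b * a := by
    intro a ha b
    induction b using MonoidAlgebra.induction_on with
    | of h => exact ha h
    | add x y hx hy => rw [mul_add, add_mul, hx, hy]
    | smul r x hx => rw [mul_smul_comm, smul_mul_assoc, hx]
  have hσc : ∀ b, σ * b = b * σ := hcomm_of σ (fun h => by rw [hσl, hσr])
  -- triviality dichotomy
  have hdich : ∀ i, (∀ h, ρ i h = 1) ∨ ev i σ = 0 := by
    intro i
    obtain ⟨c, hc⟩ := hscalar i σ hσc
    by_cases hc0 : c = 0
    · right; rw [hc, hc0, zero_smul]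
    · left
      intro h
      have h1 : ρ i h * ev i σ = ev i σ := by rw [hρ, ← map_mul, hσl]
      rw [hc, mul_smul_comm, mul_one] at h1
      have h2 := congrArg (fun M => c⁻¹ • M) h1
      simpa [smul_smul, inv_mul_cancel₀ hc0] using h2
  let T : Finset (Fin n) := Finset.univ.filter (fun i => ∀ h, ρ i h = 1)
  -- trace sums
  have hsum1 : ∀ h : G, h ≠ 1 → ∑ i, (d i : ℂ) * (ρ i h).trace = 0 := by
    intro h hh
    have := regular_trace e (MonoidAlgebra.of ℂ G h)
    rw [trace_mulLeft_of, if_neg hh] at this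
    exact this
  have hsumσ : ∑ i, (d i : ℂ) * (ev i σ).trace = Fintype.card G := by
    have := regular_trace e σ
    simp only [← hev] at this
    rw [this]
    have h2 : LinearMap.mulLeft ℂ σ = ∑ h : G, LinearMap.mulLeft ℂ (MonoidAlgebra.of ℂ G h) := by
      apply LinearMap.ext
      intro x
      simp only [σ, LinearMap.mulLeft_apply, LinearMap.sum_apply, Finset.sum_mul]
    rw [h2, map_sum]
    simp only [trace_mulLeft_of]
    simp
  have hTσ : ∑ i ∈ T, (d i : ℂ) * (d i : ℂ) = 1 := by
    have h1 : ∑ i, (d i : ℂ) * (ev i σ).trace = ∑ i ∈ T, ((d i : ℂ) * (d i : ℂ)) * Fintype.card G := by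
      rw [← Finset.sum_subset (Finset.subset_univ T)]
      · refine Finset.sum_congr rfl fun i hi => ?_
        have hi' := (Finset.mem_filter.1 hi).2
        have : ev i σ = (Fintype.card G : ℂ) • 1 := by
          simp only [σ, map_sum, ← hρ, hi', Finset.sum_const, Finset.card_univ]
          rw [← Nat.cast_smul_eq_nsmul ℂ]
        rw [this, Matrix.trace_smul, Matrix.trace_one, Fintype.card_fin, smul_eq_mul]
        ring
      · intro i _ hi
        rcases hdich i with h | h
        · exact absurd (Finset.mem_filter.2 ⟨Finset.mem_univ _, h⟩) hi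
        · rw [h, Matrix.trace_zero, mul_zero]
    rw [h1, ← Finset.sum_mul] at hsumσ
    have hne : (Fintype.card G : ℂ) ≠ 0 := by exact_mod_cast hcardG.ne'
    exact mul_right_cancel₀ hne (by rw [hsumσ, one_mul])
  -- the nontrivial part
  have hnt : ∑ i ∈ Tᶜ, (d i : ℂ) * (ρ i g).trace = -1 := by
    have h1 := hsum1 g hg1
    rw [← Finset.sum_add_sum_compl T] at h1
    have h2 : ∑ i ∈ T, (d i : ℂ) * (ρ i g).trace = 1 := by
      rw [← hTσ]
      refine Finset.sum_congr rfl fun i hi => ?_
      have hi' := (Finset.mem_filter.1 hi).2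
      rw [hi', Matrix.trace_one, Fintype.card_fin]
    rw [h2] at h1
    linear_combination h1
  -- find a good index
  obtain ⟨i, hiT, hpd, htr⟩ : ∃ i, (¬ ∀ h, ρ i h = 1) ∧ ¬ p ∣ d i ∧ (ρ i g).trace ≠ 0 := by
    by_contra hcon
    push Not at hcon
    have hdiv : ∀ i ∈ Tᶜ, ∃ β : ℂ, IsIntegral ℤ β ∧ (d i : ℂ) * (ρ i g).trace = (p : ℂ) * β := by
      intro i hi
      have hi1 : ¬ ∀ h, ρ i h = 1 := by
        intro h
        exact (Finset.mem_compl.1 hi) (Finset.mem_filter.2 ⟨Finset.mem_univ _, h⟩)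
      have hi2 : ∃ h, ρ i h ≠ 1 := by push Not at hi1; exact hi1
      by_cases hpd : p ∣ d i
      · obtain ⟨m, hm⟩ := hpd
        refine ⟨(m : ℂ) * (ρ i g).trace, ?_, ?_⟩
        · exact (isIntegral_natCast m).mul (isIntegral_trace_of_pow hcardG (hρpow i g))
        · have : (d i : ℂ) = (p : ℂ) * m := by exact_mod_cast hm
          rw [this]; ring
      · exact ⟨0, isIntegral_zero, by rw [hcon i hi2 hpd]; ring⟩
    choose! β hβ1 hβ2 using hdiv
    have h1 : (p : ℂ) * ∑ i ∈ Tᶜ, β i = -1 := by
      rw [← hnt, Finset.mul_sum]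
      exact Finset.sum_congr rfl fun i hi => (hβ2 i hi).symm
    have hint : IsIntegral ℤ (∑ i ∈ Tᶜ, β i) := IsIntegral.sum _ (fun i hi => hβ1 i hi)
    have hpne : (p : ℂ) ≠ 0 := by exact_mod_cast hp.ne_zero
    have h2 : (∑ i ∈ Tᶜ, β i) = algebraMap ℚ ℂ (-1 / p) := by
      simp only [map_div₀, map_neg, map_one, map_natCast]
      rw [eq_div_iff hpne, mul_comm]; exact h1
    rw [h2] at hint
    have h3 : IsIntegral ℤ ((-1 / p : ℚ)) := (isIntegral_algebraMap_iff (algebraMap ℚ ℂ).injective).1 hint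
    obtain ⟨m, hm⟩ := IsIntegrallyClosed.isIntegral_iff.1 h3
    have hpq : (p : ℚ) ≠ 0 := by exact_mod_cast hp.ne_zero
    have h4 : (m : ℚ) * p = -1 := by
      have : (m : ℚ) = -1 / p := by simpa using hm
      rw [this]; field_simp
    have h5 : m * (p : ℤ) = -1 := by exact_mod_cast h4
    have h6 : (p : ℤ) ∣ 1 := ⟨-m, by linarith⟩
    have h7 : p ∣ 1 := by exact_mod_cast h6
    exact hp.one_lt.ne' (Nat.dvd_one.1 h7)
  -- class sum
  let Cl : Finset G := (ConjClasses.mk g).carrier.toFinset
  have hCl : ∀ x, x ∈ Cl ↔ IsConj g x := by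
    intro x
    simp only [Cl, Set.mem_toFinset, ConjClasses.mem_carrier_iff_mk_eq, ConjClasses.mk_eq_mk_iff_isConj]
    exact isConj_comm
  have hClcard : Cl.card = p ^ k := by
    rw [← hg, Set.ncard_eq_toFinset_card']
  let z : MonoidAlgebra ℂ G := ∑ x ∈ Cl, MonoidAlgebra.of ℂ G x
  have hzc : ∀ b, z * b = b * z := by
    apply hcomm_of
    intro h
    simp only [z, Finset.mul_sum, Finset.sum_mul, ← map_mul]
    refine Finset.sum_bij (fun x _ => h⁻¹ * x * h) ?_ ?_ ?_ ?_
    · intro x hx
      rw [hCl] at hx ⊢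
      exact hx.trans (isConj_iff.2 ⟨h⁻¹, by group⟩)
    · intro x _ y _ hxy
      have := hxy
      simpa using this
    · intro y hy
      refine ⟨h * y * h⁻¹, ?_, by group⟩
      rw [hCl] at hy ⊢
      exact hy.trans (isConj_iff.2 ⟨h, rfl⟩)
    · intro x _
      congr 1; group
  obtain ⟨ω, hω⟩ := hscalar i z hzc
  have hωint : IsIntegral ℤ ω := by
    have h0 : IsIntegral ℤ (∑ x ∈ Cl, MonoidAlgebra.of ℤ G x : MonoidAlgebra ℤ G) :=
      IsIntegral.of_finite ℤ _
    have hz : MonoidAlgebra.mapRingHom G (Int.castRingHom ℂ) (∑ x ∈ Cl, MonoidAlgebra.of ℤ G x) = z := by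
      rw [map_sum]
      refine Finset.sum_congr rfl fun x _ => ?_
      ext y
      simp [MonoidAlgebra.of_apply, Finsupp.single_apply, apply_ite]
    have h1 : IsIntegral ℤ z := by
      rw [← hz]
      exact map_isIntegral_int (MonoidAlgebra.mapRingHom G (Int.castRingHom ℂ)) h0
    have h2 : IsIntegral ℤ (ev i z) := map_isIntegral_int (ev i) h1
    rw [hω, ← Algebra.algebraMap_eq_smul_one] at h2
    have : Nonempty (Fin (d i)) := ⟨⟨0, hdpos i⟩⟩
    exact (isIntegral_algebraMap_iff (FaithfulSMul.algebraMap_injective ℂ _)).1 h2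
  have hωtr : (d i : ℂ) * ω = (p ^ k : ℕ) * (ρ i g).trace := by
    have h1 : (ev i z).trace = (p ^ k : ℕ) * (ρ i g).trace := by
      simp only [z, map_sum, ← hρ, Matrix.trace_sum]
      rw [Finset.sum_congr rfl (g := fun _ => (ρ i g).trace), Finset.sum_const, hClcard, nsmul_eq_mul]
      intro x hx
      rw [hCl, isConj_iff] at hx
      obtain ⟨c, rfl⟩ := hx
      rw [map_mul, map_mul, Matrix.trace_mul_comm, ← mul_assoc, ← map_mul, inv_mul_cancel, map_one, one_mul]
    rw [← h1, hω, Matrix.trace_smul, Matrix.trace_one, Fintype.card_fin, smul_eq_mul, mul_comm]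
  have hdne : (d i : ℂ) ≠ 0 := by exact_mod_cast (hdpos i).ne'
  have havg : IsIntegral ℤ ((ρ i g).trace / (d i : ℂ)) := by
    have hcop : IsCoprime ((p ^ k : ℕ) : ℤ) (d i : ℤ) := by
      rw [Nat.isCoprime_iff_coprime]
      exact Nat.Coprime.pow_left k ((Nat.Prime.coprime_iff_not_dvd hp).2 hpd)
    obtain ⟨a, b, hab⟩ := hcop
    have habC : (a : ℂ) * (p ^ k : ℕ) + (b : ℂ) * (d i) = 1 := by exact_mod_cast hab
    have h1 : (ρ i g).trace / (d i : ℂ) = (a : ℂ) * ω + (b : ℂ) * (ρ i g).trace := by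
      rw [div_eq_iff hdne]
      calc (ρ i g).trace = ((a : ℂ) * (p ^ k : ℕ) + (b : ℂ) * (d i)) * (ρ i g).trace := by rw [habC, one_mul]
        _ = (a : ℂ) * ((p ^ k : ℕ) * (ρ i g).trace) + (b : ℂ) * (d i) * (ρ i g).trace := by ring
        _ = _ := by rw [← hωtr]; ring
    rw [h1]
    exact ((isIntegral_intCast a).mul hωint).add
      ((isIntegral_intCast b).mul (isIntegral_trace_of_pow hcardG (hρpow i g)))
  obtain ⟨u, hu⟩ := scalar_of_avg (hdpos i) hcardG (hρpow i g) htr havg
  -- kernel
  let K : Subgroup G := (ρ i).ker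
  have hK : K = ⊥ ∨ K = ⊤ := (MonoidHom.normal_ker (ρ i)).eq_bot_or_eq_top
  rcases hK with hK | hK
  · rw [Subgroup.mem_center_iff]
    intro h
    have h1 : ρ i (h * g * (g * h)⁻¹) = 1 := by
      have h2 : ρ i (h * g) = ρ i (g * h) := by
        rw [map_mul, map_mul, hu, mul_smul_comm, smul_mul_assoc, mul_one, one_mul]
      rw [map_mul, h2, ← map_mul, mul_inv_cancel, map_one]
    have h2 : h * g * (g * h)⁻¹ ∈ K := h1
    rw [hK, Subgroup.mem_bot] at h2
    exact mul_inv_eq_one.1 h2
  · exfalso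
    apply hiT
    intro h
    have : h ∈ K := by rw [hK]; trivial
    exact this
end burnside

section pq
open MulAction

theorem ncard_class_eq_index {G : Type*} [Group G] (g : G) :
    (ConjClasses.mk g).carrier.ncard = (Subgroup.centralizer {g}).index := by
  rw [← ConjAct.orbit_eq_carrier_conjClasses, ← MulAction.index_stabilizer,
    Subgroup.centralizer_eq_comap_stabilizer]
  exact (Subgroup.index_comap_of_surjective _ (ConjAct.toConjAct (G := G)).surjective).symm

/-- A finite simple group whose order is `p ^ a * q ^ b` with `p` dividing the order has nontrivial center. -/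
theorem center_ne_bot_of_card {G : Type*} [Group G] [Finite G] [IsSimpleGroup G]
    {p q a b : ℕ} (hp : p.Prime) (hq : q.Prime) (h : Nat.card G = p ^ a * q ^ b) (hpG : p ∣ Nat.card G) :
    Subgroup.center G ≠ ⊥ := by
  have : Fact p.Prime := ⟨hp⟩
  obtain ⟨P⟩ : Nonempty (Sylow p G) := inferInstance
  have hPpos : 0 < Nat.card P := Nat.card_pos
  have hPnt : Nontrivial P := by
    rw [← Finite.one_lt_card_iff_nontrivial]
    have := P.dvd_card_of_dvd_card hpG
    exact lt_of_lt_of_le hp.one_lt (Nat.le_of_dvd hPpos this)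
  have hPc : Nontrivial (Subgroup.center P) := P.isPGroup'.center_nontrivial
  obtain ⟨z, hz⟩ := exists_ne (1 : Subgroup.center P)
  let g : G := ((z : P) : G)
  have hg1 : g ≠ 1 := by
    intro hg
    apply hz
    apply Subtype.ext
    apply Subtype.ext
    exact hg
  have hle : (P : Subgroup G) ≤ Subgroup.centralizer {g} := by
    intro x hx
    rw [Subgroup.mem_centralizer_singleton_iff]
    have := Subgroup.mem_center_iff.1 z.2 ⟨x, hx⟩
    exact (congrArg Subtype.val this)
  have hidx : (Subgroup.centralizer {g}).index ∣ (P : Subgroup G).index := Subgroup.index_dvd_of_le hle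
  have hPidx : ∃ j, (P : Subgroup G).index = q ^ j := by
    have h1 : (P : Subgroup G).index ∣ p ^ a * q ^ b := by
      rw [← h]; exact Subgroup.index_dvd_card _
    have h2 : ¬ p ∣ (P : Subgroup G).index := P.not_dvd_index
    have h3 : Nat.Coprime (P : Subgroup G).index (p ^ a) :=
      (Nat.Coprime.pow_left a ((Nat.Prime.coprime_iff_not_dvd hp).2 h2)).symm
    obtain ⟨j, _, hj⟩ := (Nat.dvd_prime_pow hq).1 (h3.dvd_of_dvd_mul_left h1)
    exact ⟨j, hj⟩
  obtain ⟨j, hj⟩ := hPidx
  rw [hj] at hidx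
  obtain ⟨k, _, hk⟩ := (Nat.dvd_prime_pow hq).1 hidx
  have hcen := mem_center_of_card_class hq g (by rw [ncard_class_eq_index, hk])
  intro hbot
  rw [hbot, Subgroup.mem_bot] at hcen
  exact hg1 hcen

/-- **Burnside's theorem**: a finite group of order `p ^ a * q ^ b` is solvable. -/
theorem burnside_pq {p q : ℕ} (hp : p.Prime) (hq : q.Prime) :
    ∀ (n : ℕ) {G : Type*} [Group G] [Finite G] {a b : ℕ}, Nat.card G = n → Nat.card G = p ^ a * q ^ b →
      Group.IsSolvable G := by
  intro n
  induction n using Nat.strong_induction_on with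
  | _ n ih =>
  intro G _ _ a b hn h
  rcases subsingleton_or_nontrivial G with hs | hnt
  · infer_instance
  have hdiv : ∀ m, m ∣ p ^ a * q ^ b → ∃ i j, m = p ^ i * q ^ j := by
    intro m hm
    obtain ⟨x, y, hx, hy, hxy⟩ := (Nat.dvd_mul).1 hm
    obtain ⟨i, _, hi⟩ := (Nat.dvd_prime_pow hp).1 hx
    obtain ⟨j, _, hj⟩ := (Nat.dvd_prime_pow hq).1 hy
    exact ⟨i, j, by rw [← hxy, hi, hj]⟩
  by_cases hsimple : ∀ N : Subgroup G, N.Normal → N = ⊥ ∨ N = ⊤
  · have : IsSimpleGroup G := { exists_pair_ne := hnt.exists_pair_ne, eq_bot_or_eq_top_of_normal := fun N hN => hsimple N hN }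
    have hc : Subgroup.center G ≠ ⊥ := by
      have hcard : Nat.card G ≠ 1 := by
        rw [Ne, Nat.card_eq_one_iff_unique]
        rintro ⟨h1, -⟩
        exact not_subsingleton G h1
      by_cases hpG : p ∣ Nat.card G
      · exact center_ne_bot_of_card hp hq h hpG
      · have hqG : q ∣ Nat.card G := by
          obtain ⟨r, hr, hrG⟩ := Nat.exists_prime_and_dvd hcard
          rw [h] at hrG
          rcases (Nat.Prime.dvd_mul hr).1 hrG with h1 | h1
          · have := (Nat.prime_dvd_prime_iff_eq hr hp).1 (hr.dvd_of_dvd_pow h1)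
            rw [this] at hrG
            exact absurd (h ▸ hrG) hpG
          · have := (Nat.prime_dvd_prime_iff_eq hr hq).1 (hr.dvd_of_dvd_pow h1)
            rw [this] at hrG
            exact h ▸ hrG
        exact center_ne_bot_of_card hq hp (by rw [h, mul_comm]) hqG
    rcases (Subgroup.center G).normal_of_characteristic.eq_bot_or_eq_top with h1 | h1
    · exact absurd h1 hc
    · apply Group.isSolvable_of_comm
      intro x y
      have : y ∈ Subgroup.center G := by rw [h1]; trivial
      exact Subgroup.mem_center_iff.1 this x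
  · push Not at hsimple
    obtain ⟨N, hN, hNb, hNt⟩ := hsimple
    have hmul := Subgroup.card_eq_card_quotient_mul_card_subgroup N
    have hNcard : Nat.card N ∣ p ^ a * q ^ b := by rw [← h]; exact Subgroup.card_subgroup_dvd_card N
    have hQcard : Nat.card (G ⧸ N) ∣ p ^ a * q ^ b := by
      rw [← h]; exact Subgroup.card_quotient_dvd_card N
    obtain ⟨i, j, hij⟩ := hdiv _ hNcard
    obtain ⟨i', j', hij'⟩ := hdiv _ hQcard
    have hNpos : 0 < Nat.card N := Nat.card_pos
    have hQpos : 0 < Nat.card (G ⧸ N) := Nat.card_pos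
    have hN1 : 1 < Nat.card N := Subgroup.one_lt_card_iff_ne_bot N |>.2 hNb
    have hQ1 : 1 < Nat.card (G ⧸ N) := by
      by_contra hle
      have h1 : Nat.card (G ⧸ N) = 1 := by omega
      have : N.index = 1 := h1
      exact hNt (Subgroup.index_eq_one.1 this)
    have hNlt : Nat.card N < n := by rw [← hn, hmul]; nlinarith
    have hQlt : Nat.card (G ⧸ N) < n := by rw [← hn, hmul]; nlinarith
    have := ih _ hNlt (G := N) rfl hij
    have := ih _ hQlt (G := G ⧸ N) rfl hij'
    exact (Group.isSolvable_iff_subgroup_quotient N).2 ⟨inferInstance, inferInstance⟩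
end pq

end Pool.Agent.Lib.MP_3e83d2_al.Burnside
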