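import Mathlib
import Pool.Agent.Lib.MP_3e83d2_al.Burnside

/-!
# Finite non-soluble groups in which almost all elements have order dividing 48
-/

set_option autoImplicit false

namespace Pool.Agent.Lib.MP_3e83d2_al


/-- first sign of the dihedral group of order 16 -/
def ds : DihedralGroup 8 → ZMod 2
  | .r i => (i.val : ZMod 2)
  | .sr i => 1 + (i.val : ZMod 2)

/-- second sign of the dihedral group of order 16 -/
def dy : DihedralGroup 8 → ZMod 2
  | .r i => (i.val : ZMod 2)
  | .sr i => (i.val : ZMod 2)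

/-- indicator of the central involution -/
def dc (a : DihedralGroup 8) : ZMod 2 := if a = .r 4 then 1 else 0

theorem ds_mul : ∀ a b : DihedralGroup 8, ds (a * b) = ds a + ds b := by decide
theorem dy_mul : ∀ a b : DihedralGroup 8, dy (a * b) = dy a + dy b := by decide
theorem d_sq : ∀ a : DihedralGroup 8, ds a = 0 → (a * a = 1 ∨ a * a = .r 4) := by decide
theorem d_four : ∀ a : DihedralGroup 8, dc ((a * a) * (a * a)) = ds a * dy a := by decide
theorem d_central : ∀ a : DihedralGroup 8, a * .r 4 = .r 4 * a := by decide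
theorem d_z_sq : (.r 4 : DihedralGroup 8) * .r 4 = 1 := by decide
theorem d_swap : ∀ a b : DihedralGroup 8, ds a = ds b → (a * b) * (a * b) = (b * a) * (b * a) := by decide



/-- truncation of a vector to its first `i` coordinates -/
def tr {m : ℕ} (i : Fin m) (e : Fin m → ZMod 2) : Fin m → ZMod 2 := fun j => if j < i then e j else 0

theorem tr_add {m : ℕ} (i : Fin m) (e f : Fin m → ZMod 2) : tr i (e + f) = tr i e + tr i f := by
  ext j; by_cases h : j < i <;> simp [tr, h]

theorem tr_zero {m : ℕ} (i : Fin m) : tr i (0 : Fin m → ZMod 2) = 0 := by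
  ext j; simp [tr]

theorem add_self2 {m : ℕ} (e : Fin m → ZMod 2) : e + e = 0 := by
  ext j; exact CharTwo.add_self_eq_zero _

/-- the ambient wreath-type group -/
@[ext]
structure W (m : ℕ) where
  left : Fin m → (Fin m → ZMod 2) → DihedralGroup 8
  right : Fin m → ZMod 2

namespace W
variable {m : ℕ}

instance : Mul (W m) := ⟨fun a b => ⟨fun i g => a.left i g * b.left i (g + tr i a.right), a.right + b.right⟩⟩
instance : One (W m) := ⟨⟨fun _ _ => 1, 0⟩⟩
instance : Inv (W m) := ⟨fun a => ⟨fun i g => (a.left i (g + tr i a.right))⁻¹, a.right⟩⟩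

@[simp] theorem mul_left (a b : W m) (i : Fin m) (g : Fin m → ZMod 2) :
    (a * b).left i g = a.left i g * b.left i (g + tr i a.right) := rfl
@[simp] theorem mul_right (a b : W m) : (a * b).right = a.right + b.right := rfl
@[simp] theorem one_left (i : Fin m) (g : Fin m → ZMod 2) : (1 : W m).left i g = 1 := rfl
@[simp] theorem one_right : (1 : W m).right = 0 := rfl
@[simp] theorem inv_left (a : W m) (i : Fin m) (g : Fin m → ZMod 2) :
    (a⁻¹).left i g = (a.left i (g + tr i a.right))⁻¹ := rfl
@[simp] theorem inv_right (a : W m) : (a⁻¹).right = a.right := rfl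

instance : Group (W m) where
  mul_assoc a b c := by
    ext i g
    · simp only [mul_left, mul_right, tr_add, mul_assoc, add_assoc]
    · simp [add_assoc]
  one_mul a := by
    ext i g <;> simp [tr_zero]
  mul_one a := by
    ext i g <;> simp
  inv_mul_cancel a := by
    ext i g
    · simp
    · exact congrFun (add_self2 a.right) i

theorem card_finite : Finite (W m) := by
  have : Function.Injective (fun a : W m => (a.left, a.right)) := by
    intro a b h
    simp only [Prod.mk.injEq] at h
    exact W.ext h.1 h.2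
  exact Finite.of_injective _ this

instance : Finite (W m) := card_finite

/-- the group `Q` -/
def Q (m : ℕ) : Subgroup (W m) where
  carrier := {x | (∀ i g, ds (x.left i g) = x.right i) ∧ ∀ i, ∑ g, dy (x.left i g) = x.right i}
  mul_mem' := by
    rintro a b ⟨ha1, ha2⟩ ⟨hb1, hb2⟩
    refine ⟨fun i g => ?_, fun i => ?_⟩
    · rw [mul_left, ds_mul, ha1, hb1]; rfl
    · simp only [mul_left, dy_mul, Finset.sum_add_distrib, mul_right, Pi.add_apply]
      rw [ha2]
      have : ∑ g, dy (b.left i (g + tr i a.right)) = ∑ g, dy (b.left i g) :=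
        Fintype.sum_equiv (Equiv.addRight (tr i a.right)) _ _ (fun x => rfl)
      rw [this, hb2]
  one_mem' := by
    refine ⟨fun i g => ?_, fun i => ?_⟩
    · simp only [one_left, one_right, Pi.zero_apply]; decide
    · simp only [one_left, one_right, Pi.zero_apply, show dy 1 = 0 by decide, Finset.sum_const_zero]
  inv_mem' := by
    rintro a ⟨ha1, ha2⟩
    have h1 : ∀ d : DihedralGroup 8, ds d⁻¹ = ds d := by decide
    have h2 : ∀ d : DihedralGroup 8, dy d⁻¹ = dy d := by decide
    refine ⟨fun i g => ?_, fun i => ?_⟩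
    · rw [inv_left, h1, ha1]; rfl
    · simp only [inv_left, h2, inv_right]
      have : ∑ g, dy (a.left i (g + tr i a.right)) = ∑ g, dy (a.left i g) :=
        Fintype.sum_equiv (Equiv.addRight (tr i a.right)) _ _ (fun x => rfl)
      rw [this, ha2]

/-- a function on the whole group whose restriction to the central subgroup is a homomorphism -/
def lam (x : W m) : ZMod 2 := ∑ i, ∑ g, dc (x.left i g)

end W

namespace W
variable {m : ℕ}

/-- elements of the abelian normal subgroup -/
def IsZ (x : W m) : Prop := x.right = 0 ∧ ∀ i g, x.left i g = 1 ∨ x.left i g = .r 4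

theorem dc_mul : ∀ a b : DihedralGroup 8, (a = 1 ∨ a = .r 4) → (b = 1 ∨ b = .r 4) →
    dc (a * b) = dc a + dc b := by decide
theorem z_mul : ∀ a b : DihedralGroup 8, (a = 1 ∨ a = .r 4) → (b = 1 ∨ b = .r 4) →
    (a * b = 1 ∨ a * b = .r 4) := by decide
theorem z_inv : ∀ a : DihedralGroup 8, (a = 1 ∨ a = .r 4) → (a⁻¹ = 1 ∨ a⁻¹ = .r 4) := by decide
theorem z_conj : ∀ a b : DihedralGroup 8, (a = 1 ∨ a = .r 4) → b⁻¹ * (a * b) = a := by decide
theorem z_ds : ∀ a : DihedralGroup 8, (a = 1 ∨ a = .r 4) → a * a = 1 := by decide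

theorem IsZ.mul {a b : W m} (ha : IsZ a) (hb : IsZ b) : IsZ (a * b) := by
  refine ⟨by rw [mul_right, ha.1, hb.1, add_zero], fun i g => ?_⟩
  rw [mul_left]; exact z_mul _ _ (ha.2 _ _) (hb.2 _ _)

theorem IsZ.one : IsZ (1 : W m) := ⟨rfl, fun _ _ => Or.inl rfl⟩

theorem IsZ.inv {a : W m} (ha : IsZ a) : IsZ a⁻¹ :=
  ⟨ha.1, fun i g => by rw [inv_left]; exact z_inv _ (ha.2 _ _)⟩

theorem IsZ.sq {a : W m} (ha : IsZ a) : a * a = 1 := by
  ext i g
  · rw [mul_left, ha.1, tr_zero, add_zero, z_ds _ (ha.2 _ _)]; rfl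
  · rw [mul_right, ha.1]; rfl

theorem conj_left (x : W m) {z : W m} (hz : IsZ z) (i : Fin m) (g : Fin m → ZMod 2) :
    (x⁻¹ * z * x).left i g = z.left i (g + tr i x.right) := by
  rw [mul_assoc, mul_left, mul_left, inv_left, inv_right, hz.1, tr_zero, add_zero,
    z_conj _ _ (hz.2 _ _)]

theorem IsZ.conj (x : W m) {z : W m} (hz : IsZ z) : IsZ (x⁻¹ * z * x) := by
  refine ⟨?_, fun i g => ?_⟩
  · rw [mul_right, mul_right, inv_right, hz.1, add_zero, add_self2]
  · rw [conj_left x hz]; exact hz.2 _ _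

theorem lam_mul {a b : W m} (ha : IsZ a) (hb : IsZ b) : lam (a * b) = lam a + lam b := by
  simp only [lam, mul_left, ha.1, tr_zero, add_zero, ← Finset.sum_add_distrib]
  exact Finset.sum_congr rfl fun i _ => Finset.sum_congr rfl fun g _ => dc_mul _ _ (ha.2 _ _) (hb.2 _ _)

theorem lam_conj (x : W m) {z : W m} (hz : IsZ z) : lam (x⁻¹ * z * x) = lam z := by
  simp only [lam, conj_left x hz]
  refine Finset.sum_congr rfl fun i _ => ?_
  exact Fintype.sum_equiv (Equiv.addRight (tr i x.right)) _ _ (fun x => rfl)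

theorem four_left (x : W m) (i : Fin m) (g : Fin m → ZMod 2) :
    ((x * x) * (x * x)).left i g =
      (x.left i g * x.left i (g + tr i x.right)) * (x.left i g * x.left i (g + tr i x.right)) := by
  simp only [mul_left, mul_right, add_self2, tr_zero, add_zero]

theorem four_isZ {x : W m} (hx : x ∈ Q m) : IsZ ((x * x) * (x * x)) := by
  refine ⟨by simp only [mul_right, add_self2], fun i g => ?_⟩
  rw [four_left]
  apply d_sq
  rw [ds_mul, hx.1, hx.1]
  exact CharTwo.add_self_eq_zero _

theorem sum_eq_zero_of_shift {f : (Fin m → ZMod 2) → ZMod 2} {t : Fin m → ZMod 2} (ht : t ≠ 0)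
    (hf : ∀ g, f (g + t) = f g) : ∑ g, f g = 0 := by
  refine Finset.sum_involution (fun g _ => g + t) ?_ ?_ ?_ ?_
  · intro g _
    rw [hf]; exact CharTwo.add_self_eq_zero _
  · intro g _ _ h
    exact ht (by simpa using h)
  · intro g _; exact Finset.mem_univ _
  · intro g _
    simp only [add_assoc, add_self2, add_zero]

theorem four_block {x : W m} (hx : x ∈ Q m) (i : Fin m) :
    ∑ g, dc (((x * x) * (x * x)).left i g) = if tr i x.right = 0 then x.right i else 0 := by
  simp only [four_left]
  split_ifs with h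
  · have h1 : ∀ g, dc ((x.left i g * x.left i (g + tr i x.right)) * (x.left i g * x.left i (g + tr i x.right)))
        = x.right i * dy (x.left i g) := by
      intro g
      rw [h, add_zero, d_four, hx.1]
    simp only [h1, ← Finset.mul_sum]
    rw [hx.2]
    have : ∀ u : ZMod 2, u * u = u := by decide
    exact this _
  · apply sum_eq_zero_of_shift h
    intro g
    have h1 : g + tr i x.right + tr i x.right = g := by rw [add_assoc, add_self2, add_zero]
    rw [h1]
    congr 1
    apply d_swap
    rw [hx.1, hx.1]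

theorem four_lam {x : W m} (hx : x ∈ Q m) (h0 : x.right ≠ 0) : lam ((x * x) * (x * x)) = 1 := by
  classical
  rw [lam]
  simp only [four_block hx]
  have hne : (Finset.univ.filter (fun i => x.right i ≠ 0)).Nonempty := by
    by_contra h
    rw [Finset.not_nonempty_iff_eq_empty, Finset.filter_eq_empty_iff] at h
    exact h0 (funext fun i => not_not.1 (h (Finset.mem_univ i)))
  set j := (Finset.univ.filter (fun i => x.right i ≠ 0)).min' hne with hj
  have hjmem := Finset.min'_mem _ hne
  rw [← hj] at hjmem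
  have hj1 : x.right j ≠ 0 := (Finset.mem_filter.1 hjmem).2
  have hjlt : ∀ i, i < j → x.right i = 0 := by
    intro i hi
    by_contra h
    have := Finset.min'_le (Finset.univ.filter (fun i => x.right i ≠ 0)) i
      (Finset.mem_filter.2 ⟨Finset.mem_univ _, h⟩)
    rw [← hj] at this
    exact absurd hi (not_lt.2 this)
  rw [Finset.sum_eq_single j]
  · have : tr j x.right = 0 := by
      ext i
      by_cases h : i < j
      · simp [tr, h, hjlt i h]
      · simp [tr, h]
    rw [if_pos this]
    have h2 : ∀ u : ZMod 2, u ≠ 0 → u = 1 := by decide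
    exact h2 _ hj1
  · intro i _ hij
    rcases lt_or_gt_of_ne hij with h | h
    · rw [hjlt i h]; simp
    · rw [if_neg]
      intro h2
      have := congrFun h2 j
      simp only [tr, h, if_true, Pi.zero_apply] at this
      exact hj1 this
  · intro h; exact absurd (Finset.mem_univ _) h

/-- the projection to the elementary abelian group -/
def proj (m : ℕ) : Q m →* Multiplicative (Fin m → ZMod 2) where
  toFun x := Multiplicative.ofAdd x.1.right
  map_one' := rfl
  map_mul' _ _ := rfl

theorem proj_surj (m : ℕ) : Function.Surjective (proj m) := by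
  intro e
  let x : W m := ⟨fun i g => if e.toAdd i = 0 then 1 else if g = 0 then .r 1 else .sr 0, e.toAdd⟩
  have hx : x ∈ Q m := by
    have h2 : ∀ u : ZMod 2, u ≠ 0 → u = 1 := by decide
    refine ⟨fun i g => ?_, fun i => ?_⟩
    · simp only [x]
      split_ifs with h1 h3
      · rw [h1]; decide
      · rw [h2 _ h1]; decide
      · rw [h2 _ h1]; decide
    · by_cases h1 : e.toAdd i = 0
      · simp only [x, h1, if_true, show dy 1 = 0 by decide, Finset.sum_const_zero]
      · simp only [x, h1, if_false]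
        rw [h2 _ h1, Finset.sum_eq_single 0]
        · simp; decide
        · intro g _ hg; simp [hg]; decide
        · intro h; exact absurd (Finset.mem_univ _) h
  exact ⟨⟨x, hx⟩, rfl⟩

theorem card_ker (m : ℕ) : Nat.card (Q m) = 2 ^ m * Nat.card (proj m).ker := by
  have h1 := Subgroup.card_eq_card_quotient_mul_card_subgroup (proj m).ker
  have h2 : Nat.card (Q m ⧸ (proj m).ker) = Nat.card (Multiplicative (Fin m → ZMod 2)) :=
    Nat.card_congr (QuotientGroup.quotientKerEquivOfSurjective (proj m) (proj_surj m)).toEquiv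
  rw [h1, h2]
  congr 1
  rw [Nat.card_congr Multiplicative.toAdd]
  simp

end W


set_option maxRecDepth 100000 in
theorem perm_fact : ∀ a : Equiv.Perm (Fin 5), Equiv.Perm.sign a = -1 → a ^ 12 = 1 := by decide

/-- a transposition -/
def tau : Equiv.Perm (Fin 5) := Equiv.swap 0 1

theorem tau_inv : tau⁻¹ = tau := Equiv.swap_inv 0 1

theorem tau_sign : Equiv.Perm.sign tau = -1 := Equiv.Perm.sign_swap (by decide)

theorem alt_fact (a : Equiv.Perm (Fin 5)) (ha : Equiv.Perm.sign a = 1) :
    (a * (tau * a * tau⁻¹)) ^ 6 = 1 := by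
  have h1 : a * (tau * a * tau⁻¹) = (a * tau) ^ 2 := by
    rw [tau_inv, pow_two]; group
  rw [h1, ← pow_mul]
  apply perm_fact
  rw [Equiv.Perm.sign_mul, ha, tau_sign, one_mul]

section build
variable {Q : Type} [Group Q] (Z : Subgroup Q) (l : Q → Equiv.Perm (Fin 5))

/-- the twisted functions -/
def IsTw (F : Q → Equiv.Perm (Fin 5)) : Prop :=
  (∀ q, Equiv.Perm.sign (F q) = 1) ∧ ∀ z ∈ Z, ∀ q, F (z * q) = l z * F q * (l z)⁻¹

/-- the group -/
def GG (h2 : ∀ x, ∀ z ∈ Z, x⁻¹ * z * x ∈ Z ∧ l (x⁻¹ * z * x) = l z) :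
    Subgroup (RegularWreathProduct (Equiv.Perm (Fin 5)) Q) where
  carrier := {w | IsTw Z l w.left}
  mul_mem' := by
    rintro a b ⟨ha1, ha2⟩ ⟨hb1, hb2⟩
    refine ⟨fun q => ?_, fun z hz q => ?_⟩
    · simp [ha1, hb1]
    · have h3 : a.right⁻¹ * (z * q) = (a.right⁻¹ * z * a.right) * (a.right⁻¹ * q) := by group
      simp only [RegularWreathProduct.mul_left, Pi.mul_apply]
      rw [h3, ha2 z hz, hb2 _ (h2 a.right z hz).1, (h2 a.right z hz).2]
      group
  one_mem' := by
    refine ⟨fun q => ?_, fun z hz q => ?_⟩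
    · simp
    · simp
  inv_mem' := by
    rintro a ⟨ha1, ha2⟩
    refine ⟨fun q => ?_, fun z hz q => ?_⟩
    · simp [ha1]
    · have h3 : a.right * (z * q) = ((a.right⁻¹)⁻¹ * z * a.right⁻¹) * (a.right * q) := by group
      simp only [RegularWreathProduct.inv_left, Pi.inv_apply]
      rw [h3, ha2 _ (h2 a.right⁻¹ z hz).1, (h2 a.right⁻¹ z hz).2]
      group

variable {Z l}

theorem pow_of_right_one (w : RegularWreathProduct (Equiv.Perm (Fin 5)) Q) (hw : w.right = 1) (n : ℕ) :
    (w ^ n).right = 1 ∧ ∀ q, (w ^ n).left q = (w.left q) ^ n := by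
  induction n with
  | zero => simp
  | succ n ih =>
    refine ⟨?_, fun q => ?_⟩
    · rw [pow_succ, RegularWreathProduct.mul_right, ih.1, hw, one_mul]
    · rw [pow_succ, RegularWreathProduct.mul_left, Pi.mul_apply, ih.2, ih.1, inv_one, one_mul, pow_succ]

theorem pow48 (h2 : ∀ x, ∀ z ∈ Z, x⁻¹ * z * x ∈ Z ∧ l (x⁻¹ * z * x) = l z)
    (w : RegularWreathProduct (Equiv.Perm (Fin 5)) Q) (hw : w ∈ GG Z l h2)
    (hx1 : ((w.right * w.right) * (w.right * w.right)) ∈ Z)
    (hx2 : l ((w.right * w.right) * (w.right * w.right)) = tau)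
    (hx3 : ((w.right * w.right) * (w.right * w.right)) * ((w.right * w.right) * (w.right * w.right)) = 1) :
    w ^ 48 = 1 := by
  set u : RegularWreathProduct (Equiv.Perm (Fin 5)) Q := (w * w) * (w * w) with hu
  have hur : u.right = (w.right * w.right) * (w.right * w.right) := rfl
  set z := (w.right * w.right) * (w.right * w.right) with hz
  have huG : u ∈ GG Z l h2 := mul_mem (mul_mem hw hw) (mul_mem hw hw)
  have hzinv : z⁻¹ = z := inv_eq_of_mul_eq_one_left hx3
  have h8r : (u * u).right = 1 := by rw [RegularWreathProduct.mul_right, hur]; exact hx3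
  have h8l : ∀ q, (u * u).left q = u.left q * (tau * u.left q * tau⁻¹) := by
    intro q
    rw [RegularWreathProduct.mul_left, Pi.mul_apply, hur, hzinv, huG.2 z hx1, hx2]
  have h48 : w ^ 48 = (u * u) ^ 6 := by
    have : u = w ^ 4 := by rw [hu, ← pow_two, ← pow_two, ← pow_mul]
    rw [this, ← pow_add, ← pow_mul]
  rw [h48]
  have h := pow_of_right_one (u * u) h8r 6
  apply RegularWreathProduct.ext
  · funext q
    rw [h.2, h8l]
    exact alt_fact _ (huG.1 q)
  · exact h.1

theorem l_one (h1 : ∀ a ∈ Z, ∀ b ∈ Z, l (a * b) = l a * l b) : l 1 = 1 := by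
  have := h1 1 Z.one_mem 1 Z.one_mem
  rw [one_mul] at this
  exact (mul_eq_left.1 this.symm)

open Classical in
/-- constant-type functions supported on `Z` -/
noncomputable def fa (Z : Subgroup Q) (l : Q → Equiv.Perm (Fin 5)) (a : Equiv.Perm (Fin 5)) : Q → Equiv.Perm (Fin 5) :=
  fun q => if q ∈ Z then l q * a * (l q)⁻¹ else 1

theorem fa_tw (h1 : ∀ a ∈ Z, ∀ b ∈ Z, l (a * b) = l a * l b) (a : Equiv.Perm (Fin 5))
    (ha : Equiv.Perm.sign a = 1) : IsTw Z l (fa Z l a) := by
  refine ⟨fun q => ?_, fun z hz q => ?_⟩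
  · unfold fa
    split_ifs
    · simp [ha]
    · simp
  · unfold fa
    by_cases hq : q ∈ Z
    · rw [if_pos hq, if_pos (mul_mem hz hq), h1 z hz q hq]
      group
    · rw [if_neg hq, if_neg (fun h => hq ((Subgroup.mul_mem_cancel_left Z hz).1 h))]
      simp

theorem not_solvable (h1 : ∀ a ∈ Z, ∀ b ∈ Z, l (a * b) = l a * l b)
    (h2 : ∀ x, ∀ z ∈ Z, x⁻¹ * z * x ∈ Z ∧ l (x⁻¹ * z * x) = l z) :
    ¬ Group.IsSolvable (GG Z l h2) := by
  intro hs
  let f : alternatingGroup (Fin 5) →* GG Z l h2 :=
    { toFun := fun a => ⟨⟨fa Z l a.1, 1⟩, fa_tw h1 a.1 (Equiv.Perm.mem_alternatingGroup.1 a.2)⟩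
      map_one' := by
        apply Subtype.ext
        apply RegularWreathProduct.ext
        · funext q
          simp [fa]
        · rfl
      map_mul' := by
        intro a b
        apply Subtype.ext
        apply RegularWreathProduct.ext
        · funext q
          show fa Z l (a.1 * b.1) q = fa Z l a.1 q * fa Z l b.1 ((1 : Q)⁻¹ * q)
          rw [inv_one, one_mul]
          unfold fa
          split_ifs
          · group
          · simp
        · show (1 : Q) = 1 * 1
          rw [one_mul] }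
  have hf : Function.Injective f := by
    intro a b hab
    have h3 := congrArg (fun w => w.1.left 1) hab
    have h4 : fa Z l a.1 1 = fa Z l b.1 1 := h3
    unfold fa at h4
    rw [if_pos Z.one_mem, if_pos Z.one_mem, l_one h1] at h4
    apply Subtype.ext
    simpa using h4
  have hA : Group.IsSolvable (alternatingGroup (Fin 5)) := Group.isSolvable_of_isSolvable_injective hf
  have : Group.IsSolvable (Equiv.Perm (Fin 5)) :=
    Group.isSolvable_of_ker_le_range (alternatingGroup (Fin 5)).subtype Equiv.Perm.sign (by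
      intro x hx
      exact ⟨⟨x, Equiv.Perm.mem_alternatingGroup.2 hx⟩, rfl⟩)
  exact Equiv.Perm.not_isSolvable_fin_5 this

theorem card_GG [Finite Q] (h2 : ∀ x, ∀ z ∈ Z, x⁻¹ * z * x ∈ Z ∧ l (x⁻¹ * z * x) = l z) :
    Nat.card (GG Z l h2) = Nat.card {F : Q → Equiv.Perm (Fin 5) // IsTw Z l F} * Nat.card Q := by
  rw [← Nat.card_prod]
  exact Nat.card_congr
    { toFun := fun w => (⟨w.1.left, w.2⟩, w.1.right)
      invFun := fun p => ⟨⟨p.1.1, p.2⟩, p.1.2⟩
      left_inv := fun _ => rfl
      right_inv := fun _ => rfl }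

theorem card_ge [Finite Q] (h2 : ∀ x, ∀ z ∈ Z, x⁻¹ * z * x ∈ Z ∧ l (x⁻¹ * z * x) = l z) (X : Set Q)
    (hX : ∀ x ∈ X, ((x * x) * (x * x)) ∈ Z ∧ l ((x * x) * (x * x)) = tau ∧
      ((x * x) * (x * x)) * ((x * x) * (x * x)) = 1) :
    Nat.card X * Nat.card (GG Z l h2) ≤ Nat.card {g : GG Z l h2 // orderOf g ∣ 48} * Nat.card Q := by
  rw [card_GG h2]
  set B := {F : Q → Equiv.Perm (Fin 5) // IsTw Z l F} with hB
  have hle : Nat.card B * Nat.card X ≤ Nat.card {g : GG Z l h2 // orderOf g ∣ 48} := by
    rw [← Nat.card_prod]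
    let φ : B × X → {g : GG Z l h2 // orderOf g ∣ 48} := fun p =>
      ⟨⟨⟨p.1.1, p.2.1⟩, p.1.2⟩, by
        rw [orderOf_dvd_iff_pow_eq_one]
        apply Subtype.ext
        exact pow48 h2 ⟨p.1.1, p.2.1⟩ p.1.2 (hX _ p.2.2).1 (hX _ p.2.2).2.1 (hX _ p.2.2).2.2⟩
    have hφ : Function.Injective φ := by
      rintro ⟨⟨F, hF⟩, ⟨x, hx⟩⟩ ⟨⟨F', hF'⟩, ⟨x', hx'⟩⟩ h
      have h3 := congrArg (fun w => w.1.1) h
      have h4 : (⟨F, x⟩ : RegularWreathProduct (Equiv.Perm (Fin 5)) Q) = ⟨F', x'⟩ := h3
      rw [RegularWreathProduct.mk.injEq] at h4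
      obtain ⟨rfl, rfl⟩ := h4
      rfl
    exact Nat.card_le_card_of_injective φ hφ
  calc Nat.card X * (Nat.card B * Nat.card Q) = (Nat.card B * Nat.card X) * Nat.card Q := by ring
    _ ≤ _ := Nat.mul_le_mul_right _ hle

end build
theorem solvable_of_exponent {G : Type*} [Group G] [Finite G] (h : Monoid.exponent G ∣ 48) :
    Group.IsSolvable G := by
  have hprime : ∀ r : ℕ, r.Prime → r ∣ Nat.card G → r = 2 ∨ r = 3 := by
    intro r hr hrG
    have : Fact r.Prime := ⟨hr⟩
    obtain ⟨g, hg⟩ := exists_prime_orderOf_dvd_card' r hrG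
    have h1 : r ∣ 48 := by rw [← hg]; exact (Monoid.order_dvd_exponent g).trans h
    have h2 : (48 : ℕ) = 2 ^ 4 * 3 := by norm_num
    rw [h2] at h1
    rcases (Nat.Prime.dvd_mul hr).1 h1 with h3 | h3
    · left; exact (Nat.prime_dvd_prime_iff_eq hr Nat.prime_two).1 (hr.dvd_of_dvd_pow h3)
    · right; exact (Nat.prime_dvd_prime_iff_eq hr Nat.prime_three).1 h3
  have hcard : Nat.card G = 2 ^ (Nat.card G).factorization 2 * 3 ^ (Nat.card G).factorization 3 := by
    have hne : Nat.card G ≠ 0 := Nat.card_pos.ne'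
    conv_lhs => rw [← Nat.prod_factorization_pow_eq_self hne]
    rw [Finsupp.prod_of_support_subset (s := {2, 3})]
    · rw [Finset.prod_pair (by norm_num)]
    · intro r hr
      rw [Nat.support_factorization, Nat.mem_primeFactors] at hr
      rcases hprime r hr.1 hr.2.1 with h | h <;> simp [h]
    · intro i _; exact pow_zero i
  exact Burnside.burnside_pq Nat.prime_two Nat.prime_three _ rfl hcard


open W

/-- for each `m` a finite non-soluble group in which all but a proportion of at most `2 ^ (-m)` of the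
elements have order dividing 48 -/
theorem exists_large (m : ℕ) : ∃ (G : Type) (_ : Group G) (_ : Finite G), ¬ Group.IsSolvable G ∧
    (2 ^ m - 1) * Nat.card G ≤ 2 ^ m * Nat.card {g : G // orderOf g ∣ 48} := by
  let Z : Subgroup (Q m) :=
    { carrier := {x | IsZ x.1}
      mul_mem' := fun ha hb => IsZ.mul ha hb
      one_mem' := IsZ.one
      inv_mem' := fun ha => IsZ.inv ha }
  let l : Q m → Equiv.Perm (Fin 5) := fun x => if lam x.1 = 0 then 1 else tau
  have htau : tau * tau = 1 := by
    have := mul_inv_cancel tau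
    rwa [tau_inv] at this
  have h1 : ∀ a ∈ Z, ∀ b ∈ Z, l (a * b) = l a * l b := by
    intro a ha b hb
    have h3 : lam ((a * b : Q m) : W m) = lam a.1 + lam b.1 := lam_mul ha hb
    simp only [l, h3]
    have h4 : ∀ u v : ZMod 2, (if u + v = 0 then (1 : Equiv.Perm (Fin 5)) else tau)
        = (if u = 0 then 1 else tau) * (if v = 0 then 1 else tau) := by
      have h5 : ∀ u : ZMod 2, u = 0 ∨ u = 1 := by decide
      intro u v
      rcases h5 u with rfl | rfl <;> rcases h5 v with rfl | rfl
      · simp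
      · simp
      · simp
      · rw [if_pos (by decide), if_neg (by decide), htau]
    exact h4 _ _
  have h2 : ∀ x, ∀ z ∈ Z, x⁻¹ * z * x ∈ Z ∧ l (x⁻¹ * z * x) = l z := by
    intro x z hz
    refine ⟨IsZ.conj x.1 hz, ?_⟩
    have : lam ((x⁻¹ * z * x : Q m) : W m) = lam z.1 := lam_conj x.1 hz
    simp only [l, this]
  let X : Set (Q m) := {x | x.1.right ≠ 0}
  have hX : ∀ x ∈ X, ((x * x) * (x * x)) ∈ Z ∧ l ((x * x) * (x * x)) = tau ∧
      ((x * x) * (x * x)) * ((x * x) * (x * x)) = 1 := by
    intro x hx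
    refine ⟨four_isZ x.2, ?_, ?_⟩
    · have : lam ((((x * x) * (x * x)) : Q m) : W m) = 1 := four_lam x.2 hx
      simp only [l, this]
      rw [if_neg (by decide)]
    · apply Subtype.ext
      exact IsZ.sq (four_isZ x.2)
  refine ⟨GG Z l h2, inferInstance, ?_, not_solvable h1 h2, ?_⟩
  · infer_instance
  · have hge := card_ge h2 X hX
    have hcompl : X = (((proj m).ker : Set (Q m)))ᶜ := by
      ext x
      simp only [X, Set.mem_ofPred_eq, Set.mem_compl_iff, SetLike.mem_coe, MonoidHom.mem_ker]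
      exact Iff.rfl
    have hk := card_ker m
    have hkpos : 0 < Nat.card (proj m).ker := Nat.card_pos
    have hXc : Nat.card X + Nat.card (proj m).ker = Nat.card (Q m) := by
      rw [hcompl, add_comm]
      exact Set.ncard_add_ncard_compl _
    have hXk : Nat.card X = (2 ^ m - 1) * Nat.card (proj m).ker := by
      rw [hk] at hXc
      rw [Nat.sub_mul, one_mul]
      omega
    rw [hXk, hk] at hge
    have h5 : Nat.card (proj m).ker * ((2 ^ m - 1) * Nat.card (GG Z l h2)) ≤
        Nat.card (proj m).ker * (2 ^ m * Nat.card {g : GG Z l h2 // orderOf g ∣ 48}) := by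
      calc Nat.card (proj m).ker * ((2 ^ m - 1) * Nat.card (GG Z l h2))
          = (2 ^ m - 1) * Nat.card (proj m).ker * Nat.card (GG Z l h2) := by ring
        _ ≤ Nat.card {g : GG Z l h2 // orderOf g ∣ 48} * (2 ^ m * Nat.card (proj m).ker) := hge
        _ = _ := by ring
    exact Nat.le_of_mul_le_mul_left h5 hkpos

end Pool.Agent.Lib.MP_3e83d2_al
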